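import Pool.Agent.Helper478_Bases.EPi

/-!
# The first digits of `e`, `π` and `√2` in almost every base

There is an absolute constant `κ` such that for almost all bases `r` the first `n` digits in base `r` of
`e`, `π`, `√2`, and of all the irrational elements of the fields `ℚ(e)`, `ℚ(π)` and `ℚ(√2)`, are
equidistributed for all `n` between a bound tending to infinity as slowly as one likes and
`(log r) ^ (1 / κ)`. The number of the exceptional bases up to `R` is exponentially small in `n`,
uniformly over the elements of bounded degree whose coefficients are at most exponential in `n`.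

Proof. For fixed `x` the products `∏_{i ≤ n} (1 + λ cos (2π (h x r ^ i + φ)))` have mean value at most
`2` over the bases `r ≤ R`: after expanding, each term but the constant one is a Weyl sum in `r` over a
polynomial of degree at most `n` with leading coefficient `± h x`. The transcendence measures of `e` and
`π` show that this coefficient is badly approximable to a certain extent, and Vinogradov's mean value
theorem (applied to a bilinear form, so that only the leading coefficient matters) shows that the Weyl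
sums are at most `R exp (- 2 n)`. Hence large deviations of `∑_{i ≤ n} exp (2π i h x r ^ i)` occur for at
most `R exp (- c n)` bases `r ≤ R`. This beats the number of the elements `x` in question.
-/

set_option autoImplicit false

open Filter Topology Polynomial

namespace Pool.Agent.Results.MP_7e9a3a_nt.AlmostAllBases

/-- The discrepancy of the first `n` points `x r ^ i`, `1 ≤ i ≤ n`, modulo one is at most `ε`: for all
intervals `[α, β)` in `[0, 1]` the number of `1 ≤ i ≤ n` for which the fractional part of `x r ^ i` lies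
in `[α, β)` differs from `(β - α) n` by at most `ε n`. -/
def DiscrepancyAtMost (r n : ℕ) (ε x : ℝ) : Prop :=
  ∀ α β : ℝ, 0 ≤ α → α < β → β ≤ 1 →
    |(({i : ℕ | 1 ≤ i ∧ i ≤ n ∧ α ≤ Int.fract (x * (r : ℝ) ^ i) ∧
      Int.fract (x * (r : ℝ) ^ i) < β}.ncard : ℕ) : ℝ) - (β - α) * n| ≤ ε * n

/-- The irrational numbers `P(θ) / Q(θ)`, where `θ` is one of the numbers `e`, `π`, `√2`, and `P`, `Q`
are polynomials of degree at most `d` with integer coefficients of absolute value at most `H`. -/
def Elements (d : ℕ) (H : ℝ) : Set ℝ :=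
  {x | Irrational x ∧ ∃ θ ∈ ({Real.exp 1, Real.pi, √2} : Set ℝ), ∃ P Q : ℤ[X],
    P.natDegree ≤ d ∧ Q.natDegree ≤ d ∧ (∀ j, |(P.coeff j : ℝ)| ≤ H) ∧ (∀ j, |(Q.coeff j : ℝ)| ≤ H) ∧
    x = aeval θ P / aeval θ Q}

/-- There is an absolute constant `κ` with the following properties.
(1) For all `d` and `ε > 0` there are `c > 0` and `N₀` such that for all `N ≥ N₀` and all `R` all
but at most `exp (- c N) R` of the bases `r ≤ R` are such that for all irrational `x = P(θ) / Q(θ)`,
`θ ∈ {e, π, √2}`, where `P`, `Q` are integer polynomials of degree at most `d` with coefficients of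
absolute value at most `exp (c N)`, and all `n ≥ N` with `n ^ κ ≤ log R` the discrepancy of
`x r, x r ^ 2, …, x r ^ n` modulo one is at most `ε`.
(2) For every function `g` tending to infinity there is a set `𝓑` of natural density one such that
for every irrational element `x` of the fields `ℚ(e)`, `ℚ(π)`, `ℚ(√2)` and every `ε > 0`, for all large
`r ∈ 𝓑`, the discrepancy of `x r, x r ^ 2, …, x r ^ n` modulo one is at most `ε` for all `n ≥ g r`
with `n ^ κ ≤ log r`. -/
theorem result : ∃ κ : ℕ, 1 ≤ κ ∧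
    (∀ d : ℕ, ∀ ε : ℝ, 0 < ε → ∃ c : ℝ, 0 < c ∧ ∃ N₀ : ℕ, ∀ N R : ℕ, N₀ ≤ N →
      (({r : ℕ | 1 ≤ r ∧ r ≤ R ∧ ∃ x ∈ Elements d (Real.exp (c * N)), ∃ n : ℕ, N ≤ n ∧
        (n : ℝ) ^ κ ≤ Real.log R ∧ ¬ DiscrepancyAtMost r n ε x}.ncard : ℕ) : ℝ) ≤
          Real.exp (-(c * N)) * R) ∧
    (∀ g : ℕ → ℕ, Tendsto g atTop atTop → ∃ 𝓑 : Set ℕ,
      Tendsto (fun R : ℕ => (({r : ℕ | 1 ≤ r ∧ r ≤ R ∧ r ∈ 𝓑}.ncard : ℕ) : ℝ) / R) atTop (𝓝 1) ∧
      ∀ θ ∈ ({Real.exp 1, Real.pi, √2} : Set ℝ), ∀ P Q : ℤ[X], Irrational (aeval θ P / aeval θ Q) →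
        ∀ ε : ℝ, 0 < ε → ∀ᶠ r : ℕ in atTop, r ∈ 𝓑 → ∀ n : ℕ, g r ≤ n → (n : ℝ) ^ κ ≤ Real.log r →
          DiscrepancyAtMost r n ε (aeval θ P / aeval θ Q)) := by
  classical
  obtain ⟨κ, h1, h⟩ := Pool.Agent.Helper478.Bases.main_fields
  have hΘ : (({Real.exp 1, Real.pi, √2} : Finset ℝ) : Set ℝ) = {Real.exp 1, Real.pi, √2} := by
    push_cast; rfl
  obtain ⟨h2, h3⟩ := h {Real.exp 1, Real.pi, √2} (by
    intro θ hθ
    simp only [Finset.mem_insert, Finset.mem_singleton] at hθ
    rcases hθ with rfl | rfl | rfl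
    · exact Pool.Agent.Helper478.Bases.measW_of_measT _ Pool.Agent.TH456.TM.measT_e
    · exact Pool.Agent.Helper478.Bases.measW_of_measT _ Pool.Agent.TH456.TM.measT_pi
    · exact Pool.Agent.Helper478.Bases.measW_sqrt_two)
  rw [hΘ] at h2 h3
  refine ⟨κ, h1, h2, fun g hg => ?_⟩
  obtain ⟨𝓑, h4, h5⟩ := h3 g hg
  refine ⟨𝓑, h4, fun θ hθ P Q hirr ε hε => ?_⟩
  have hc : ∀ P : ℤ[X], ∀ j, |(P.coeff j : ℝ)| ≤
      ((∑ i ∈ Finset.range (P.natDegree + 1), (P.coeff i).natAbs : ℕ) : ℝ) := by
    intro P j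
    by_cases hj : j ∈ Finset.range (P.natDegree + 1)
    · have h6 : (P.coeff j).natAbs ≤ ∑ i ∈ Finset.range (P.natDegree + 1), (P.coeff i).natAbs :=
        Finset.single_le_sum (f := fun i => (P.coeff i).natAbs) (fun _ _ => Nat.zero_le _) hj
      have h7 : |(P.coeff j : ℝ)| = ((P.coeff j).natAbs : ℝ) := by
        rw [Nat.cast_natAbs, Int.cast_abs]
      rw [h7]
      exact_mod_cast h6
    · rw [Finset.mem_range, Nat.not_lt] at hj
      rw [coeff_eq_zero_of_natDegree_lt (by omega), Int.cast_zero, abs_zero]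
      exact Nat.cast_nonneg _
  set k : ℕ := (P.natDegree + Q.natDegree) +
    ((∑ i ∈ Finset.range (P.natDegree + 1), (P.coeff i).natAbs) +
      ∑ i ∈ Finset.range (Q.natDegree + 1), (Q.coeff i).natAbs) with hk
  refine h5 k (aeval θ P / aeval θ Q) ⟨hirr, θ, hθ, P, Q, by omega, by omega, ?_, ?_, rfl⟩ ε hε
  · intro j
    refine (hc P j).trans ?_
    exact_mod_cast (by omega : ∑ i ∈ Finset.range (P.natDegree + 1), (P.coeff i).natAbs ≤ k)
  · intro j
    refine (hc Q j).trans ?_
    exact_mod_cast (by omega : ∑ i ∈ Finset.range (Q.natDegree + 1), (Q.coeff i).natAbs ≤ k)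

end Pool.Agent.Results.MP_7e9a3a_nt.AlmostAllBases
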