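import Pool.Agent.Helper478_Short.An

/-!
# Joint digits of the values `n ^ θ g (n ^ (-s))` of analytic functions, for almost all `n` in short intervals

Let `g₁, …, g_r` be real functions which are analytic at `0` and let `θ` and `0 < s ≤ 1` be real numbers, such
that no integer combination of the functions `t ^ θ g_j (t ^ (-s))` is a polynomial for large `t`, apart from the
trivial one. Then for almost all integers `n` in every short interval `(N, N + N ^ ρ]`, `ρ > 0`, the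
tuple of the numbers `n ^ θ g_j (n ^ (-s))` has jointly equidistributed digits, in all bases `b` at once, in
all windows of at least `(log N) ^ (1 - γ)` places between the place `C log N / log b` and the
place `(log N) ^ (1 + γ) / log b`. The number `n` has only `log N` bits.

Examples, `s = 1`, `θ = 0`: the triple `(e ^ (1 / n), arctan (1 / n), √(1 + 1 / n))`, which for `n = 1` is
`(e, π / 4, √2)` (see `triple` below); `π / n`, `π / (n ^ 2 + 1)` and `π R(n)` for every rational function `R`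
which is not a polynomial; `√(n ^ 2 + 1)` (`θ = 1`). By Puiseux's theorem every real branch of an algebraic
function on a half line `t > t₀` is of the form `t ^ θ g (t ^ (-1 / e))`, for instance the largest real zero
of `X ^ 5 - X - t`.

Proof. The `j`-th Taylor coefficient of `t ^ θ g (t ^ (-s))` at `n` is of the same order of magnitude
as for the main term `c t ^ (θ - s m)` of the expansion at infinity which is not a monomial with exponent in `ℕ`,
for all `j` up to a constant times `log n`. Vinogradov's mean value theorem with growing degree gives a bound for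
the exponential sums, for which it is enough that one coefficient has the right size, and which works in
short intervals. A large deviation bound for blocks of digits and Weyl's criterion give the result.
-/

set_option autoImplicit false

open Filter Topology

namespace Pool.Agent.Results.MP_7e9a3a_nt.AnalyticFamilies

/-- The points with the coordinates `z j * b ^ i`, `u < i ≤ v`, are equidistributed modulo one up to `ε`: for
all boxes `∏ [p j, q j)` in the unit cube the number of the `i` in `(u, v]` for which the fractional part of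
`z j * b ^ i` lies in `[p j, q j)` for all `j` differs from `v - u` times the volume of the box by at most
`ε (v - u)`. -/
def JointEqui {r : ℕ} (b u v : ℕ) (ε : ℝ) (z : Fin r → ℝ) : Prop :=
  ∀ p q : Fin r → ℝ, (∀ j, 0 ≤ p j ∧ p j ≤ q j ∧ q j ≤ 1) →
    |(({i : ℕ | u < i ∧ i ≤ v ∧ ∀ j, p j ≤ Int.fract (z j * (b : ℝ) ^ i) ∧
      Int.fract (z j * (b : ℝ) ^ i) < q j}.ncard : ℕ) : ℝ) - ((v : ℝ) - u) * ∏ j, (q j - p j)| ≤
        ε * ((v : ℝ) - u)

theorem result : ∃ γ : ℝ, 0 < γ ∧ ∀ (r : ℕ) (θ s : ℝ), 0 < s → s ≤ 1 → ∀ (g : Fin r → ℝ → ℝ),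
    (∀ j, AnalyticAt ℝ (g j) 0) →
    (∀ Z : Fin r → ℤ, Z ≠ 0 →
      ¬ ∃ P : Polynomial ℝ, ∀ᶠ t : ℝ in atTop, t ^ θ * ∑ j, (Z j : ℝ) * g j (t ^ (-s)) = P.eval t) →
    ∀ ρ : ℝ, 0 < ρ → ρ ≤ 1 → ∀ ε : ℝ, 0 < ε → ∃ C : ℝ, ∃ N₀ : ℕ, ∀ N M : ℕ, N₀ ≤ N →
      (N : ℝ) ^ ρ ≤ M → M ≤ N →
      (({n : ℕ | N < n ∧ n ≤ N + M ∧ ¬ ∀ b u v : ℕ, 2 ≤ b → (Real.log N) ^ (1 - γ) ≤ (v : ℝ) - u →
        v * Real.log b ≤ (Real.log N) ^ (1 + γ) → C * Real.log N ≤ u * Real.log b →
        JointEqui b u v ε (fun j => (n : ℝ) ^ θ * g j ((n : ℝ) ^ (-s)))}.ncard : ℕ) : ℝ) ≤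
          M * Real.exp (-√(Real.log N)) := by
  classical
  obtain ⟨γ, h1, h⟩ := Pool.Agent.Helper478.Short.an_digits
  refine ⟨γ, h1, ?_⟩
  intro r θ s hs0 hs1 g hg hpoly ρ hρ0 hρ1 ε hε
  obtain ⟨C, N₀, hC⟩ := h r θ s hs0 hs1 g hg hpoly ρ hρ0 hρ1 ε hε
  refine ⟨C, N₀, fun N M hN hM1 hM2 => ?_⟩
  refine le_trans ?_ (hC N M hN hM1 hM2)
  have hfin : {n : ℕ | 1 ≤ n ∧ n ≤ M ∧ ∃ b u v : ℕ, 2 ≤ b ∧ (Real.log N) ^ (1 - γ) ≤ (v : ℝ) - u ∧
        v * Real.log b ≤ (Real.log N) ^ (1 + γ) ∧ C * Real.log N ≤ u * Real.log b ∧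
        ∃ p q : Fin r → ℝ, (∀ j, 0 ≤ p j ∧ p j ≤ q j ∧ q j ≤ 1) ∧
          ε * ((v : ℝ) - u) < |(({i : ℕ | u < i ∧ i ≤ v ∧ ∀ j,
            p j ≤ Int.fract (((N : ℝ) + n) ^ θ * g j (((N : ℝ) + n) ^ (-s)) * (b : ℝ) ^ i) ∧
            Int.fract (((N : ℝ) + n) ^ θ * g j (((N : ℝ) + n) ^ (-s)) * (b : ℝ) ^ i) < q j}.ncard : ℕ) : ℝ) -
              ((v : ℝ) - u) * ∏ j, (q j - p j)|}.Finite :=
    (Set.finite_Iic M).subset fun n hn => hn.2.1
  refine Nat.cast_le.2 (le_trans (Set.ncard_le_ncard ?_ (hfin.image (fun n => N + n)))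
    (Set.ncard_image_le hfin))
  rintro n ⟨a1, a2, a3⟩
  push Not at a3
  obtain ⟨b, u, v, a4, a5, a6, a7, a8⟩ := a3
  unfold JointEqui at a8
  push Not at a8
  obtain ⟨p, q, a9, a10⟩ := a8
  refine ⟨n - N, ⟨by omega, by omega, b, u, v, a4, a5, a6, a7, p, q, a9, ?_⟩, by simp only; omega⟩
  have e1 : (N : ℝ) + ((n - N : ℕ) : ℝ) = n := by
    rw [Nat.cast_sub a1.le]; ring
  rw [e1]
  exact a10

/-- the functions of the example -/
noncomputable def gTriple : Fin 3 → ℝ → ℝ := ![Real.exp, Real.arctan, fun z => √(1 + z)]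

/-- Example: the hypotheses of `result` hold for the triple `(e ^ (1 / n), arctan (1 / n), √(1 + 1 / n))`
(`θ = 0`, `s = 1`). -/
theorem triple : (∀ j, AnalyticAt ℝ (gTriple j) 0) ∧ ∀ Z : Fin 3 → ℤ, Z ≠ 0 →
    ¬ ∃ P : Polynomial ℝ, ∀ᶠ t : ℝ in atTop,
      t ^ (0 : ℝ) * ∑ j, (Z j : ℝ) * gTriple j (t ^ (-(1 : ℝ))) = P.eval t := by
  have hexp : ∀ x : ℝ, AnalyticAt ℝ Real.exp x := fun x => analyticAt_rexp
  have harc : ∀ x : ℝ, AnalyticAt ℝ Real.arctan x := fun x =>
    (contDiff_omega_iff_analyticOnNhd.1 Real.contDiff_arctan) x (Set.mem_univ x)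
  have hsq : ∀ x : ℝ, -1 < x → AnalyticAt ℝ (fun z => √(1 + z)) x := by
    intro x hx
    have h1 : ContDiffAt ℝ ⊤ (fun z : ℝ => 1 + z) x := by fun_prop
    exact (h1.sqrt (by linarith : (1 : ℝ) + x ≠ 0)).analyticAt
  constructor
  · intro j
    fin_cases j
    · exact hexp 0
    · exact harc 0
    · exact hsq 0 (by norm_num)
  · rintro Z hZ ⟨P, hP⟩
    obtain ⟨f, hf⟩ : ∃ f : ℝ → ℝ, f = fun x => (Z 0 : ℝ) * Real.exp x + (Z 1 : ℝ) * Real.arctan x +
      (Z 2 : ℝ) * √(1 + x) := ⟨_, rfl⟩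
    have hfa : ∀ x : ℝ, -1 < x → AnalyticAt ℝ f x := by
      intro x hx
      rw [hf]
      exact ((analyticAt_const.mul (hexp x)).add (analyticAt_const.mul (harc x))).add
        (analyticAt_const.mul (hsq x hx))
    have hP' : ∀ᶠ t : ℝ in atTop, f t⁻¹ = P.eval t := by
      filter_upwards [hP] with t ht
      rw [← ht, Real.rpow_zero, one_mul, Fin.sum_univ_three, hf, Real.rpow_neg_one]
      simp [gTriple]
    have hinv : Tendsto (fun t : ℝ => t⁻¹) atTop (𝓝 0) := tendsto_inv_atTop_zero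
    have hlim : Tendsto (fun t => P.eval t) atTop (𝓝 (f 0)) := by
      have h1 : Tendsto (fun t : ℝ => f t⁻¹) atTop (𝓝 (f 0)) :=
        (hfa 0 (by norm_num)).continuousAt.tendsto.comp hinv
      exact h1.congr' hP'
    have hdeg := ((Polynomial.tendsto_nhds_iff P).1 hlim).2
    obtain ⟨c, hc⟩ : ∃ c : ℝ, c = P.coeff 0 := ⟨_, rfl⟩
    have hPc : ∀ t, P.eval t = c := by
      intro t
      rw [Polynomial.eq_C_of_degree_le_zero hdeg, Polynomial.eval_C, hc]
    have hfreq : ∃ᶠ z in 𝓝[≠] (0 : ℝ), f z = (fun _ => c) z := by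
      have h1 : Tendsto (fun t : ℝ => t⁻¹) atTop (𝓝[≠] 0) :=
        tendsto_inv_atTop_nhdsGT_zero.mono_right (nhdsWithin_mono _ fun x hx => ne_of_gt hx)
      refine h1.frequently (Eventually.frequently ?_)
      filter_upwards [hP'] with t ht
      rw [ht, hPc t]
    have heq : Set.EqOn f (fun _ => c) (Set.Ioi (-1)) :=
      AnalyticOnNhd.eqOn_of_preconnected_of_frequently_eq (fun x hx => hfa x hx)
        (fun x _ => analyticAt_const) isPreconnected_Ioi (by norm_num : (0 : ℝ) ∈ Set.Ioi (-1 : ℝ)) hfreq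
    have heq' : ∀ x : ℝ, 0 ≤ x → (Z 0 : ℝ) * Real.exp x + (Z 1 : ℝ) * Real.arctan x +
        (Z 2 : ℝ) * √(1 + x) = c := by
      intro x hx
      have := heq (show x ∈ Set.Ioi (-1 : ℝ) from by simp only [Set.mem_Ioi]; linarith)
      rw [hf] at this
      exact this
    have hat : ∀ x : ℝ, |Real.arctan x| ≤ 2 := by
      intro x
      have h1 := Real.arctan_lt_pi_div_two x
      have h2 := Real.neg_pi_div_two_lt_arctan x
      have h3 := Real.pi_le_four
      rw [abs_le]; constructor <;> linarith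
    have hz1 : |(Z 1 : ℝ)| * 2 ≥ 0 := by positivity
    -- `Z 0 = 0`
    have hZ0 : Z 0 = 0 := by
      by_contra hne
      have h1 : (1 : ℝ) ≤ |(Z 0 : ℝ)| := by exact_mod_cast Int.one_le_abs hne
      obtain ⟨K, hK⟩ : ∃ K : ℝ, K = |c| + |(Z 1 : ℝ)| * 2 + |(Z 2 : ℝ)| := ⟨_, rfl⟩
      have hK0 : 0 ≤ K := by rw [hK]; positivity
      obtain ⟨x, hx⟩ : ∃ x : ℝ, x = 2 * K + 2 := ⟨_, rfl⟩
      have hx0 : 0 ≤ x := by rw [hx]; positivity
      have h2 := heq' x hx0
      have h3 := Real.quadratic_le_exp_of_nonneg hx0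
      have h4 : |(Z 0 : ℝ)| * Real.exp x ≤ |c| + |(Z 1 : ℝ)| * 2 + |(Z 2 : ℝ)| * (1 + x) := by
        have e1 : (Z 0 : ℝ) * Real.exp x = c - (Z 1 : ℝ) * Real.arctan x - (Z 2 : ℝ) * √(1 + x) := by
          linarith
        have e2 : |(Z 0 : ℝ)| * Real.exp x = |(Z 0 : ℝ) * Real.exp x| := by
          rw [abs_mul, abs_of_pos (Real.exp_pos x)]
        have e3 : √(1 + x) ≤ 1 + x := by
          rw [Real.sqrt_le_left (by linarith)]
          nlinarith
        rw [e2, e1]
        calc |c - (Z 1 : ℝ) * Real.arctan x - (Z 2 : ℝ) * √(1 + x)| ≤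
              |c - (Z 1 : ℝ) * Real.arctan x| + |(Z 2 : ℝ) * √(1 + x)| := abs_sub _ _
          _ ≤ |c| + |(Z 1 : ℝ) * Real.arctan x| + |(Z 2 : ℝ) * √(1 + x)| := by
              linarith [abs_sub c ((Z 1 : ℝ) * Real.arctan x)]
          _ = |c| + |(Z 1 : ℝ)| * |Real.arctan x| + |(Z 2 : ℝ)| * √(1 + x) := by
              rw [abs_mul, abs_mul, abs_of_nonneg (Real.sqrt_nonneg _)]
          _ ≤ _ := by
              have := hat x
              gcongr
      have h5 : |c| + |(Z 1 : ℝ)| * 2 + |(Z 2 : ℝ)| * (1 + x) ≤ K * (1 + x) := by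
        rw [hK]
        have h6 : 0 ≤ |c| + |(Z 1 : ℝ)| * 2 := by positivity
        nlinarith
      have h7 : 1 * Real.exp x ≤ |(Z 0 : ℝ)| * Real.exp x :=
        mul_le_mul_of_nonneg_right h1 (Real.exp_pos x).le
      rw [hx] at h3 h4 h5 h7
      nlinarith
    -- `Z 2 = 0`
    have hZ2 : Z 2 = 0 := by
      by_contra hne
      have h1 : (1 : ℝ) ≤ |(Z 2 : ℝ)| := by exact_mod_cast Int.one_le_abs hne
      obtain ⟨K, hK⟩ : ∃ K : ℝ, K = |c| + |(Z 1 : ℝ)| * 2 := ⟨_, rfl⟩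
      have hK0 : 0 ≤ K := by rw [hK]; positivity
      have h2 := heq' (K ^ 2) (by positivity)
      rw [hZ0] at h2
      have h3 : K < √(1 + K ^ 2) := by
        rw [Real.lt_sqrt hK0]; linarith
      have h4 : |(Z 2 : ℝ)| * √(1 + K ^ 2) ≤ K := by
        have e1 : (Z 2 : ℝ) * √(1 + K ^ 2) = c - (Z 1 : ℝ) * Real.arctan (K ^ 2) := by
          push_cast at h2
          linarith
        have e2 : |(Z 2 : ℝ)| * √(1 + K ^ 2) = |(Z 2 : ℝ) * √(1 + K ^ 2)| := by
          rw [abs_mul, abs_of_nonneg (Real.sqrt_nonneg _)]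
        rw [e2, e1]
        calc |c - (Z 1 : ℝ) * Real.arctan (K ^ 2)| ≤ |c| + |(Z 1 : ℝ) * Real.arctan (K ^ 2)| := abs_sub _ _
          _ = |c| + |(Z 1 : ℝ)| * |Real.arctan (K ^ 2)| := by rw [abs_mul]
          _ ≤ |c| + |(Z 1 : ℝ)| * 2 := by
              have := hat (K ^ 2)
              gcongr
          _ = K := hK.symm
      nlinarith [Real.sqrt_nonneg (1 + K ^ 2)]
    -- `Z 1 = 0`
    have hZ1 : Z 1 = 0 := by
      have h1 := heq' 0 le_rfl
      have h2 := heq' 1 zero_le_one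
      rw [hZ0, hZ2] at h1 h2
      rw [Real.arctan_zero] at h1
      rw [Real.arctan_one] at h2
      have h3 : (Z 1 : ℝ) * (Real.pi / 4) = 0 := by
        push_cast at h1 h2
        linarith
      have h4 := (mul_eq_zero.1 h3).resolve_right (by positivity)
      exact_mod_cast h4
    apply hZ
    funext j
    fin_cases j
    · exact hZ0
    · exact hZ1
    · exact hZ2

end Pool.Agent.Results.MP_7e9a3a_nt.AnalyticFamilies
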