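import Pool.Agent.Helper478_Shift.Fields

/-!
# The digits of the numbers `x / (n + t)`, for all `x` and `t` in the fields of `e`, `π`, `√2` at once

For a positive integer `n` the number `x` is normal to base `r` if and only if `x / n` is. We
show: for almost all `n ≤ N` all numbers `x / (n + t)` (in particular all `x / n`), where `x ≠ 0`
and `t` run over the elements of the field `ℚ(e)`, `ℚ(π)` or `ℚ(√2)` of bounded degree whose coefficients
are at most `exp ((log N) ^ (1 / 3))`, have this property: in all bases at once, every block of at least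
`(log N) ^ (1 - γ)` consecutive digits between the places `(1 + δ) log N / log r` and
`(log N) ^ (1 + γ) / log r` is equidistributed.

Proof. For fixed `x`, `t` and base `r` we move the point so that `x` has the size of `N` up to a factor
`r`. The products `∏_{i ≤ k} (1 + λ cos (2π (h x r ^ (u + i) / (n + t) + φ)))` with
`k ≤ 2 (log N) ^ (1 - 3γ)` have mean value at most `2`: after expanding, each term but the constant one is
an exponential sum `∑ e (F / (n + t))`, and the method of Vinogradov and Korobov, which is uniform in the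
real shift `t` and in the amplitude `F`, gives a saving of `exp (2 (log N) ^ (1 - 3γ))` for these. So the
number of exceptional `n` is at most `N exp (- c (log N) ^ (2 / 5))`, and this beats the number of the
pairs `x`, `t`. The transcendence measures of `e` and `π` show that the numbers `x` are not too small.
-/

set_option autoImplicit false

open Filter Topology Polynomial

namespace Pool.Agent.Results.MP_7e9a3a_nt.FieldQuotients

/-- The discrepancy of the points `y r ^ i`, `u < i ≤ v`, modulo one is at most `ε`: for all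
intervals `[α, β)` in `[0, 1]` the number of `u < i ≤ v` for which the fractional part of `y r ^ i` lies
in `[α, β)` differs from `(β - α) (v - u)` by at most `ε (v - u)`. -/
def DiscrepancyAtMost (y : ℝ) (r u v : ℕ) (ε : ℝ) : Prop :=
  ∀ α β : ℝ, 0 ≤ α → α < β → β ≤ 1 →
    |(({i : ℕ | u < i ∧ i ≤ v ∧ α ≤ Int.fract (y * (r : ℝ) ^ i) ∧
      Int.fract (y * (r : ℝ) ^ i) < β}.ncard : ℕ) : ℝ) - (β - α) * ((v : ℝ) - u)| ≤ ε * ((v : ℝ) - u)

/-- The numbers `P(θ) / Q(θ)`, `Q(θ) ≠ 0`, where `P`, `Q` are polynomials of degree at most `d` with integer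
coefficients of absolute value at most `h`. -/
def Elements (θ : ℝ) (d : ℕ) (h : ℝ) : Set ℝ :=
  {x | ∃ P Q : ℤ[X], P.natDegree ≤ d ∧ Q.natDegree ≤ d ∧ (∀ j, |(P.coeff j : ℝ)| ≤ h) ∧
    (∀ j, |(Q.coeff j : ℝ)| ≤ h) ∧ aeval θ Q ≠ 0 ∧ x = aeval θ P / aeval θ Q}

/-- There is a constant `γ > 0` such that for all `d` and all `δ, ε > 0` and all large `N`, all but
at most `N exp (- (log N) ^ (1 / 3))` of the integers `N < n ≤ 2 N` have this property: for `θ = e, π, √2`,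
for all `x ≠ 0` and `t` of the form `P(θ) / Q(θ)` with integer polynomials `P`, `Q` of degree at most `d` and
coefficients of absolute value at most `exp ((log N) ^ (1 / 3))`, for all bases `r ≥ 2` and all `u`, `v` with
`(1 + δ) log N ≤ u log r`, `v log r ≤ (log N) ^ (1 + γ)` and `v - u ≥ (log N) ^ (1 - γ)` the discrepancy of
the points `r ^ i x / (n + t)`, `u < i ≤ v`, modulo one is at most `ε`. -/
theorem result : ∃ γ : ℝ, 0 < γ ∧ ∀ d : ℕ, ∀ δ : ℝ, 0 < δ → ∀ ε : ℝ, 0 < ε → ∀ᶠ N : ℕ in atTop,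
    (({n : ℕ | N < n ∧ n ≤ 2 * N ∧ ∃ θ ∈ ({Real.exp 1, Real.pi, √2} : Set ℝ),
      ∃ x ∈ Elements θ d (Real.exp ((Real.log N) ^ (1 / 3 : ℝ))),
      ∃ t ∈ Elements θ d (Real.exp ((Real.log N) ^ (1 / 3 : ℝ))), x ≠ 0 ∧
      ∃ r u v : ℕ, 2 ≤ r ∧ (1 + δ) * Real.log N ≤ u * Real.log r ∧
        v * Real.log r ≤ (Real.log N) ^ (1 + γ) ∧ (Real.log N) ^ (1 - γ) ≤ (v : ℝ) - u ∧
        ¬ DiscrepancyAtMost (x / (n + t)) r u v ε}.ncard : ℕ) : ℝ) ≤
          N * Real.exp (-(Real.log N) ^ (1 / 3 : ℝ)) := by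
  classical
  obtain ⟨γ, hγ0, hγ1, hfib⟩ := Pool.Agent.Helper478.Shift.fib
  refine ⟨γ / 2, by positivity, ?_⟩
  intro d δ hδ ε hε
  obtain ⟨H₁, hH₁⟩ := hfib 1 le_rfl (δ / 2) (by positivity) ε hε
  -- sizes of the elements
  have hsize : ∃ k : ℕ, ∃ K : ℝ, 1 ≤ K ∧ ∀ θ ∈ ({Real.exp 1, Real.pi, √2} : Set ℝ), ∀ h : ℝ, 1 ≤ h →
      ∀ x ∈ Elements θ d h, |x| ≤ K * h ^ k ∧ (x ≠ 0 → 1 ≤ K * h ^ k * |x|) := by
    obtain ⟨k1, K1, a1, b1⟩ := Pool.Agent.Helper478.Shift.elt_size (Real.exp 1)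
      (Pool.Agent.Helper478.Bases.measW_of_measT _ Pool.Agent.TH456.TM.measT_e) d
    obtain ⟨k2, K2, a2, b2⟩ := Pool.Agent.Helper478.Shift.elt_size Real.pi
      (Pool.Agent.Helper478.Bases.measW_of_measT _ Pool.Agent.TH456.TM.measT_pi) d
    obtain ⟨k3, K3, a3, b3⟩ := Pool.Agent.Helper478.Shift.elt_size (√2)
      Pool.Agent.Helper478.Bases.measW_sqrt_two d
    refine ⟨k1 + k2 + k3, K1 * K2 * K3, ?_, ?_⟩
    · calc (1 : ℝ) = 1 * 1 * 1 := by ring
        _ ≤ _ := by gcongr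
    intro θ hθ h hh x hx
    have hh0 : 0 < h := by linarith
    have key : ∀ (k : ℕ) (K : ℝ), 1 ≤ K → K ≤ K1 * K2 * K3 → k ≤ k1 + k2 + k3 →
        (|x| ≤ K * h ^ k ∧ (x ≠ 0 → 1 ≤ K * h ^ k * |x|)) →
        |x| ≤ K1 * K2 * K3 * h ^ (k1 + k2 + k3) ∧
          (x ≠ 0 → 1 ≤ K1 * K2 * K3 * h ^ (k1 + k2 + k3) * |x|) := by
      intro k K hK1 hKle hkle ⟨c1, c2⟩
      have e1 : K * h ^ k ≤ K1 * K2 * K3 * h ^ (k1 + k2 + k3) := by
        have e2 : h ^ k ≤ h ^ (k1 + k2 + k3) := pow_le_pow_right₀ hh hkle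
        apply mul_le_mul hKle e2 (by positivity) (by linarith)
      refine ⟨c1.trans e1, fun hne => (c2 hne).trans ?_⟩
      exact mul_le_mul_of_nonneg_right e1 (abs_nonneg _)
    rcases hθ with rfl | rfl | rfl
    · refine key k1 K1 a1 ?_ (by omega) (b1 h hh x hx)
      calc K1 = K1 * 1 * 1 := by ring
        _ ≤ _ := by gcongr
    · refine key k2 K2 a2 ?_ (by omega) (b2 h hh x hx)
      calc K2 = 1 * K2 * 1 := by ring
        _ ≤ _ := by gcongr
    · refine key k3 K3 a3 ?_ (by omega) (b3 h hh x hx)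
      calc K3 = 1 * 1 * K3 := by ring
        _ ≤ _ := by gcongr
  obtain ⟨k, K, hK1, hsz⟩ := hsize
  have hK0 : 0 < K := by linarith
  -- eventual inequalities in `y = log N`
  have ev_pow := Pool.Agent.Helper478.Surds.ev_pow
  have ev1 : ∀ᶠ y : ℝ in atTop, (16 * k) * y ^ (1 / 3 : ℝ) ≤ y ^ (2 / 5 : ℝ) := ev_pow _ _ _ (by norm_num)
  have ev2 : ∀ᶠ y : ℝ in atTop, (16 * Real.log K) * y ^ (0 : ℝ) ≤ y ^ (2 / 5 : ℝ) :=
    ev_pow _ _ _ (by norm_num)
  have ev3 : ∀ᶠ y : ℝ in atTop, (16 * (4 * (d + 1) + 1)) * y ^ (1 / 3 : ℝ) ≤ y ^ (2 / 5 : ℝ) :=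
    ev_pow _ _ _ (by norm_num)
  have ev4 : ∀ᶠ y : ℝ in atTop, (16 * Real.log (48 * 3 ^ (4 * (d + 1)))) * y ^ (0 : ℝ) ≤ y ^ (2 / 5 : ℝ) :=
    ev_pow _ _ _ (by norm_num)
  have ev5 : ∀ᶠ y : ℝ in atTop, 32 * y ^ (1 / 10 : ℝ) ≤ y ^ (2 / 5 : ℝ) := ev_pow _ _ _ (by norm_num)
  have ev6 : ∀ᶠ y : ℝ in atTop, (16 * (1 + 1 / δ) * (2 + δ)) * y ^ (2 / 5 : ℝ) ≤ y ^ (1 : ℝ) :=
    ev_pow _ _ _ (by norm_num)
  have ev7 : ∀ᶠ y : ℝ in atTop, 4 * y ^ (1 - γ) ≤ y ^ (1 - γ / 2) := ev_pow _ _ _ (by linarith)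
  have hlog : Tendsto (fun N : ℕ => Real.log N) atTop atTop :=
    Real.tendsto_log_atTop.comp tendsto_natCast_atTop_atTop
  filter_upwards [hlog.eventually ((ev1.and ev2).and ((ev3.and ev4).and ((ev5.and ev6).and
    (ev7.and (eventually_ge_atTop 10))))), eventually_ge_atTop H₁, eventually_ge_atTop 2]
    with N hev hNH₁ hN2
  obtain ⟨⟨q1, q2⟩, ⟨q3, q4⟩, ⟨q5, q6⟩, q7, q8⟩ := hev
  obtain ⟨y, hy⟩ : ∃ y : ℝ, y = Real.log N := ⟨_, rfl⟩
  have hN0 : (0 : ℝ) < N := by exact_mod_cast (by omega : 0 < N)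
  have hN1 : (1 : ℝ) ≤ N := by exact_mod_cast (by omega : 1 ≤ N)
  have hNexp : (N : ℝ) = Real.exp y := by rw [hy, Real.exp_log hN0]
  rw [← hy] at q1 q2 q3 q4 q5 q6 q7 q8 ⊢
  have hy0 : 0 < y := by linarith
  have hy1 : 1 ≤ y := by linarith
  rw [Real.rpow_zero, mul_one] at q2 q4
  rw [Real.rpow_one] at q6
  obtain ⟨L, hL⟩ : ∃ L : ℝ, L = y ^ (2 / 5 : ℝ) := ⟨_, rfl⟩
  obtain ⟨M, hM⟩ : ∃ M : ℝ, M = y ^ (1 / 3 : ℝ) := ⟨_, rfl⟩
  rw [← hL] at q1 q2 q3 q4 q5 q6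
  rw [← hM] at q1 q3 ⊢
  have hL0 : 0 < L := by rw [hL]; positivity
  have hL1 : 1 ≤ L := by rw [hL]; exact Real.one_le_rpow hy1 (by norm_num)
  have hM0 : 0 < M := by rw [hM]; positivity
  have hM1 : 1 ≤ M := by rw [hM]; exact Real.one_le_rpow hy1 (by norm_num)
  have hLy : 16 * (2 + δ) * L ≤ y := by
    refine le_trans ?_ q6
    have h1 : 0 ≤ 1 / δ * (2 + δ) * L := by positivity
    nlinarith
  have hLy2 : 16 * L ≤ δ * y := by
    have h1 : 16 * (1 + 1 / δ) * (2 + δ) * L * δ ≤ y * δ := mul_le_mul_of_nonneg_right q6 hδ.le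
    have h2 : 16 * (1 + 1 / δ) * (2 + δ) * L * δ = 16 * (2 + δ) * L * δ + 16 * (2 + δ) * L := by
      field_simp
    have h3 : 0 ≤ 16 * (2 + δ) * L * δ := by positivity
    have h4 : 16 * L ≤ 16 * (2 + δ) * L := by nlinarith
    linarith
  -- the number `2 N`
  obtain ⟨z, hz⟩ : ∃ z : ℝ, z = Real.log ((2 * N : ℕ) : ℝ) := ⟨_, rfl⟩
  have h2N : ((2 * N : ℕ) : ℝ) = 2 * N := by push_cast; ring
  have hzy : z = Real.log 2 + y := by
    rw [hz, h2N, Real.log_mul (by norm_num) hN0.ne', hy]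
  have hlog2 : 0 < Real.log 2 := Real.log_pos (by norm_num)
  have hlog2' : Real.log 2 ≤ 1 := by
    have := Real.log_two_lt_d9; linarith
  have hyz : y ≤ z := by linarith
  have hz0 : 0 < z := by linarith
  have hz2 : z ≤ 2 * y := by linarith
  have hzexp : ((2 * N : ℕ) : ℝ) = Real.exp z := by
    rw [hz, Real.exp_log (by rw [h2N]; positivity)]
  obtain ⟨h, hh⟩ : ∃ h : ℝ, h = Real.exp M := ⟨_, rfl⟩
  rw [← hh]
  have hh1 : 1 ≤ h := by rw [hh]; exact Real.one_le_exp hM0.le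
  have hh0 : 0 < h := by linarith
  -- sizes
  have hKh : K * h ^ k ≤ Real.exp (L / 8) := by
    have e1 : K ≤ Real.exp (L / 16) := by
      rw [← Real.log_le_iff_le_exp hK0]; linarith
    have e2 : h ^ k ≤ Real.exp (L / 16) := by
      rw [hh, ← Real.exp_nat_mul]
      apply Real.exp_le_exp.2
      linarith
    calc K * h ^ k ≤ Real.exp (L / 16) * Real.exp (L / 16) := by gcongr
      _ = Real.exp (L / 8) := by rw [← Real.exp_add]; congr 1; ring
  -- the finite sets of elements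
  choose T hT1 hT2 using fun θ : ℝ => Pool.Agent.Helper478.Shift.elt_count θ d h hh1
  let Θ : Finset ℝ := {Real.exp 1, Real.pi, √2}
  let I : Finset (ℝ × ℝ × ℝ) := Θ.biUnion fun θ => ((T θ ×ˢ T θ).filter fun p : ℝ × ℝ =>
    p.1 ≠ 0 ∧ |p.1| ≤ ((2 * N : ℕ) : ℝ) ∧ |p.2| ≤ ((2 * N : ℕ) : ℝ)).image fun p => (θ, p)
  let B : ℝ × ℝ × ℝ → Set ℤ := fun p => {m : ℤ | |(m : ℝ)| ≤ ((2 * N : ℕ) : ℝ) ∧ p.2.2 + m ≠ 0 ∧
    Pool.Agent.Helper478.Shift.BadX ((2 * N : ℕ) : ℝ) (δ / 2) γ ε p.2.1 (p.2.1 / (p.2.2 + m))}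
  have hBfin : ∀ p, (B p).Finite := by
    intro p
    apply (Finset.finite_toSet (Finset.Icc (-((2 * N : ℕ) : ℤ)) ((2 * N : ℕ) : ℤ))).subset
    rintro m ⟨h1, -⟩
    rw [Finset.mem_coe, Finset.mem_Icc]
    rw [abs_le] at h1
    exact ⟨by exact_mod_cast h1.1, by exact_mod_cast h1.2⟩
  have hexpN : Real.exp (L / 8) ≤ N := by
    rw [hNexp]
    apply Real.exp_le_exp.2
    nlinarith
  have hsub : {n : ℕ | N < n ∧ n ≤ 2 * N ∧ ∃ θ ∈ ({Real.exp 1, Real.pi, √2} : Set ℝ),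
      ∃ x ∈ Elements θ d h, ∃ t ∈ Elements θ d h, x ≠ 0 ∧
      ∃ r u v : ℕ, 2 ≤ r ∧ (1 + δ) * y ≤ u * Real.log r ∧
        v * Real.log r ≤ y ^ (1 + γ / 2) ∧ y ^ (1 - γ / 2) ≤ (v : ℝ) - u ∧
        ¬ DiscrepancyAtMost (x / (n + t)) r u v ε} ⊆
      (fun m : ℤ => m.toNat) '' (⋃ p ∈ I, B p) := by
    rintro n ⟨a1, a2, θ, hθ, x, hx, t, ht, hx0, r, u, v, hr, b1, b2, b3, b4⟩
    obtain ⟨c1, c2⟩ := hsz θ hθ h hh1 x hx
    obtain ⟨c3, -⟩ := hsz θ hθ h hh1 t ht
    have c4 := c2 hx0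
    have hxle : |x| ≤ ((2 * N : ℕ) : ℝ) := by rw [h2N]; linarith
    have htlt : |t| ≤ N := by linarith
    have htle : |t| ≤ ((2 * N : ℕ) : ℝ) := by rw [h2N]; linarith
    have hnt : t + (n : ℝ) ≠ 0 := by
      have e1 : (N : ℝ) < n := by exact_mod_cast a1
      have e2 := neg_abs_le t
      have : 0 < t + (n : ℝ) := by linarith
      exact this.ne'
    refine ⟨(n : ℤ), ?_, by simp⟩
    rw [Set.mem_iUnion₂]
    refine ⟨(θ, x, t), ?_, ?_, ?_, ?_⟩
    · rw [Finset.mem_biUnion]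
      refine ⟨θ, ?_, ?_⟩
      · simp only [Θ, Finset.mem_insert, Finset.mem_singleton]
        exact hθ
      · rw [Finset.mem_image]
        refine ⟨(x, t), ?_, rfl⟩
        rw [Finset.mem_filter, Finset.mem_product]
        exact ⟨⟨hT1 θ hx, hT1 θ ht⟩, hx0, hxle, htle⟩
    · rw [h2N]
      have : ((n : ℤ) : ℝ) = n := by push_cast; rfl
      rw [this, abs_of_nonneg (Nat.cast_nonneg _)]
      exact_mod_cast a2
    · push_cast; exact hnt
    · have hr0 : (0 : ℝ) < r := by exact_mod_cast (by omega : 0 < r)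
      refine ⟨r, u, v, hr, ?_, ?_, ?_, ?_⟩
      · rw [← hz]
        refine le_trans ?_ b3
        refine le_trans ?_ q7
        calc z ^ (1 - γ) ≤ (2 * y) ^ (1 - γ) := Real.rpow_le_rpow hz0.le hz2 (by linarith)
          _ = 2 ^ (1 - γ) * y ^ (1 - γ) := Real.mul_rpow (by norm_num) hy0.le
          _ ≤ 4 * y ^ (1 - γ) := by
              apply mul_le_mul_of_nonneg_right _ (by positivity)
              calc (2 : ℝ) ^ (1 - γ) ≤ 2 ^ (1 : ℝ) :=
                    Real.rpow_le_rpow_of_exponent_le (by norm_num) (by linarith)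
                _ ≤ 4 := by rw [Real.rpow_one]; norm_num
      · rw [← hz]
        refine b2.trans ?_
        calc y ^ (1 + γ / 2) ≤ y ^ (1 + γ) := Real.rpow_le_rpow_of_exponent_le hy1 (by linarith)
          _ ≤ z ^ (1 + γ) := Real.rpow_le_rpow hy0.le hyz (by linarith)
      · rw [hzexp, ← Real.exp_mul]
        have e1 : Real.exp (-(L / 8)) ≤ |x| := by
          rw [Real.exp_neg, inv_le_iff_one_le_mul₀ (Real.exp_pos _)]
          calc (1 : ℝ) ≤ K * h ^ k * |x| := c4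
            _ ≤ Real.exp (L / 8) * |x| := by gcongr
            _ = |x| * Real.exp (L / 8) := mul_comm _ _
        have e2 : Real.exp ((1 + δ) * y) ≤ (r : ℝ) ^ u := by
          rw [← Real.rpow_natCast (r : ℝ) u, Real.rpow_def_of_pos hr0]
          apply Real.exp_le_exp.2
          rw [mul_comm (Real.log r)]
          exact b1
        calc Real.exp (z * (1 + δ / 2)) ≤ Real.exp (-(L / 8)) * Real.exp ((1 + δ) * y) := by
              rw [← Real.exp_add, Real.exp_le_exp, hzy]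
              nlinarith
          _ ≤ |x| * (r : ℝ) ^ u := by gcongr
      · intro hcon
        apply b4
        intro α β g1 g2 g3
        have := hcon α β g1 g2 g3
        push_cast at this
        rw [add_comm t] at this
        exact this
  have hUfin : (⋃ p ∈ I, B p).Finite := by
    apply Set.Finite.biUnion (Finset.finite_toSet _)
    intro p _
    exact hBfin p
  have g1 := (Set.ncard_le_ncard hsub (hUfin.image _)).trans (Set.ncard_image_le hUfin)
  have g2 : (⋃ p ∈ I, B p).ncard ≤ ∑ p ∈ I, (B p).ncard := Finset.set_ncard_biUnion_le _ _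
  refine le_trans (by exact_mod_cast g1.trans g2 :
    (_ : ℝ) ≤ ((∑ p ∈ I, (B p).ncard : ℕ) : ℝ)) ?_
  push_cast
  have hone : ∀ p ∈ I, (((B p).ncard : ℕ) : ℝ) ≤ Real.exp (z ^ (1 / 10 : ℝ)) *
      (8 * (((2 * N : ℕ) : ℝ) * Real.exp (-z ^ (2 / 5 : ℝ)))) := by
    intro p hp
    rw [Finset.mem_biUnion] at hp
    obtain ⟨θ, hθ, hp⟩ := hp
    rw [Finset.mem_image] at hp
    obtain ⟨⟨x, t⟩, hp, rfl⟩ := hp
    rw [Finset.mem_filter] at hp
    have := hH₁ (2 * N) x t (by omega) hp.2.1 (by rw [one_mul]; exact hp.2.2.1)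
      (by rw [one_mul]; exact hp.2.2.2)
    rw [← hz] at this
    exact this
  refine (Finset.sum_le_sum hone).trans ?_
  rw [Finset.sum_const, nsmul_eq_mul]
  have hcard : ((I.card : ℕ) : ℝ) ≤ 3 * ((3 * h) ^ (2 * (d + 1)) * (3 * h) ^ (2 * (d + 1))) := by
    have c1 : I.card ≤ ∑ θ ∈ Θ, ((T θ).card * (T θ).card) := by
      refine Finset.card_biUnion_le.trans (Finset.sum_le_sum fun θ _ => ?_)
      refine Finset.card_image_le.trans ((Finset.card_filter_le _ _).trans ?_)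
      rw [Finset.card_product]
    have c2 : ((I.card : ℕ) : ℝ) ≤ ∑ θ ∈ Θ, (((T θ).card : ℝ) * ((T θ).card : ℝ)) := by
      exact_mod_cast c1
    refine c2.trans ?_
    have c3 : ∀ θ ∈ Θ, (((T θ).card : ℝ) * ((T θ).card : ℝ)) ≤
        (3 * h) ^ (2 * (d + 1)) * (3 * h) ^ (2 * (d + 1)) := by
      intro θ _
      exact mul_le_mul (hT2 θ) (hT2 θ) (Nat.cast_nonneg _) (pow_nonneg (by linarith) _)
    refine (Finset.sum_le_sum c3).trans ?_
    rw [Finset.sum_const, nsmul_eq_mul]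
    apply mul_le_mul_of_nonneg_right _ (by positivity)
    have : Θ.card ≤ 3 := Finset.card_le_three
    exact_mod_cast this
  have hz10 : z ^ (1 / 10 : ℝ) ≤ 2 * y ^ (1 / 10 : ℝ) := by
    calc z ^ (1 / 10 : ℝ) ≤ (2 * y) ^ (1 / 10 : ℝ) := Real.rpow_le_rpow hz0.le hz2 (by norm_num)
      _ = 2 ^ (1 / 10 : ℝ) * y ^ (1 / 10 : ℝ) := Real.mul_rpow (by norm_num) hy0.le
      _ ≤ 2 * y ^ (1 / 10 : ℝ) := by
          apply mul_le_mul_of_nonneg_right _ (by positivity)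
          calc (2 : ℝ) ^ (1 / 10 : ℝ) ≤ 2 ^ (1 : ℝ) :=
                Real.rpow_le_rpow_of_exponent_le (by norm_num) (by norm_num)
            _ = 2 := Real.rpow_one _
  have hzL : L ≤ z ^ (2 / 5 : ℝ) := by
    rw [hL]; exact Real.rpow_le_rpow hy0.le hyz (by norm_num)
  have hpow : (3 * h) ^ (2 * (d + 1)) * (3 * h) ^ (2 * (d + 1)) =
      3 ^ (4 * (d + 1)) * Real.exp ((4 * (d + 1)) * M) := by
    rw [← pow_add, mul_pow, hh, ← Real.exp_nat_mul]
    congr 2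
    · ring
    · push_cast; ring
  have hconst : (48 : ℝ) * 3 ^ (4 * (d + 1)) ≤ Real.exp (L / 16) := by
    have h48 : (0 : ℝ) < 48 * 3 ^ (4 * (d + 1)) := mul_pos (by norm_num) (pow_pos (by norm_num) _)
    rw [← Real.log_le_iff_le_exp h48]
    linarith
  calc ((I.card : ℕ) : ℝ) * (Real.exp (z ^ (1 / 10 : ℝ)) *
        (8 * (((2 * N : ℕ) : ℝ) * Real.exp (-z ^ (2 / 5 : ℝ))))) ≤
      (3 * ((3 * h) ^ (2 * (d + 1)) * (3 * h) ^ (2 * (d + 1)))) * (Real.exp (L / 16) *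
        (8 * (((2 * N : ℕ) : ℝ) * Real.exp (-L)))) := by
        gcongr
        linarith
    _ = N * ((48 * 3 ^ (4 * (d + 1))) * (Real.exp ((4 * (d + 1)) * M) * Real.exp (L / 16) *
          Real.exp (-L))) := by
        rw [hpow, h2N]; ring
    _ ≤ N * (Real.exp (L / 16) * (Real.exp (L / 16 - M) * Real.exp (L / 16) * Real.exp (-L))) := by
        gcongr
        linarith
    _ = N * Real.exp (-M - 13 / 16 * L) := by
        rw [← Real.exp_add, ← Real.exp_add, ← Real.exp_add]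
        congr 2
        ring
    _ ≤ N * Real.exp (-M) := by
        gcongr
        linarith

end Pool.Agent.Results.MP_7e9a3a_nt.FieldQuotients
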