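import Pool.Agent.Helper478_Shift.Fields

/-!
# The digits of the numbers `(a ξ + b) / (c ξ + d)`, in all integer bases

The theorem holds for every numerator `a ξ + b ≠ 0` and every `c`, for almost all integers `d`.
-/

set_option autoImplicit false

namespace Pool.Agent.Results.MP_7e9a3a_nt.MobiusImages

open Pool.Agent.Helper478.Shift
open Pool.Agent.Helper478.Surds (EquiW ev_pow)
open Filter

theorem result : ∃ γ : ℝ, 0 < γ ∧ ∀ C : ℝ, ∀ δ : ℝ, 0 < δ → ∀ ε : ℝ, 0 < ε → ∃ H₀ : ℕ,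
    ∀ H : ℕ, H₀ ≤ H → ∀ ξ : ℝ, |ξ| ≤ C → ∀ a b c : ℤ, |(a : ℝ)| ≤ H → |(b : ℝ)| ≤ H → |(c : ℝ)| ≤ H →
    a * ξ + b ≠ 0 →
    (({d : ℤ | |(d : ℝ)| ≤ H ∧ c * ξ + d ≠ 0 ∧ ∃ r u v : ℕ, 2 ≤ r ∧
        (Real.log H) ^ (1 - γ) ≤ (v : ℝ) - u ∧ v * Real.log r ≤ (Real.log H) ^ (1 + γ) ∧
        (H : ℝ) ^ (1 + δ) ≤ |a * ξ + b| * (r : ℝ) ^ u ∧
        ¬ EquiW ((a * ξ + b) / (c * ξ + d)) r u v ε}.ncard : ℕ) : ℝ) ≤
      H * Real.exp (-(Real.log H) ^ (1 / 3 : ℝ)) := by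
  obtain ⟨γ, hγ0, hγ1, hq⟩ := fib
  refine ⟨γ, hγ0, ?_⟩
  intro C δ hδ ε hε
  obtain ⟨H₁, hH₁⟩ := hq (|C| + 1) (by linarith [abs_nonneg C]) δ hδ ε hε
  have ev1 : ∀ᶠ y : ℝ in atTop, 4 * y ^ (1 / 10 : ℝ) ≤ y ^ (2 / 5 : ℝ) := ev_pow _ _ _ (by norm_num)
  have ev2 : ∀ᶠ y : ℝ in atTop, 4 * y ^ (1 / 3 : ℝ) ≤ y ^ (2 / 5 : ℝ) := ev_pow _ _ _ (by norm_num)
  have ev3 : ∀ᶠ y : ℝ in atTop, 12 * y ^ (0 : ℝ) ≤ y ^ (2 / 5 : ℝ) := ev_pow _ _ _ (by norm_num)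
  have hlog : Tendsto (fun N : ℕ => Real.log N) atTop atTop :=
    Real.tendsto_log_atTop.comp tendsto_natCast_atTop_atTop
  have hev := hlog.eventually ((ev1.and ev2).and (ev3.and (eventually_ge_atTop 10)))
  obtain ⟨H₀, hH₀⟩ := eventually_atTop.1 (hev.and (eventually_ge_atTop (max H₁ 2)))
  refine ⟨H₀, ?_⟩
  intro H hH ξ hξ a b c ha hb hc hab
  obtain ⟨⟨⟨q1, q2⟩, q3, q4⟩, q5⟩ := hH₀ H hH
  have hHH₁ : H₁ ≤ H := (le_max_left _ _).trans q5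
  have hH0 : (0 : ℝ) < H := by
    have : 2 ≤ H := (le_max_right _ _).trans q5
    exact_mod_cast (by omega : 0 < H)
  rw [Real.rpow_zero, mul_one] at q3
  have hCC : C ≤ |C| := le_abs_self C
  have hC0 : 0 ≤ |C| := abs_nonneg C
  have hξC : |ξ| ≤ |C| := hξ.trans hCC
  have h1 := hH₁ H (a * ξ + b) (c * ξ) hHH₁ hab (by
    calc |(a : ℝ) * ξ + b| ≤ |(a : ℝ)| * |ξ| + |(b : ℝ)| := by
          rw [← abs_mul]; exact abs_add_le _ _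
      _ ≤ H * |C| + H := by gcongr
      _ = (|C| + 1) * H := by ring) (by
    rw [abs_mul]
    calc |(c : ℝ)| * |ξ| ≤ H * |C| := by gcongr
      _ ≤ (|C| + 1) * H := by nlinarith)
  refine h1.trans ?_
  have h8 : (8 : ℝ) ≤ Real.exp 3 := by
    have h3 : Real.exp 3 = Real.exp 1 ^ 3 := by rw [← Real.exp_nat_mul]; norm_num
    have h4 := Real.exp_one_gt_d9
    rw [h3]
    calc (8 : ℝ) ≤ 2.7 ^ 3 := by norm_num
      _ ≤ Real.exp 1 ^ 3 := pow_le_pow_left₀ (by norm_num) (by linarith) 3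
  calc Real.exp ((Real.log H) ^ (1 / 10 : ℝ)) * (8 * (H * Real.exp (-(Real.log H) ^ (2 / 5 : ℝ)))) ≤
        Real.exp ((Real.log H) ^ (1 / 10 : ℝ)) *
          (Real.exp 3 * (H * Real.exp (-(Real.log H) ^ (2 / 5 : ℝ)))) := by gcongr
    _ = H * Real.exp ((Real.log H) ^ (1 / 10 : ℝ) + 3 - (Real.log H) ^ (2 / 5 : ℝ)) := by
        rw [sub_eq_add_neg, Real.exp_add, Real.exp_add]; ring
    _ ≤ H * Real.exp (-(Real.log H) ^ (1 / 3 : ℝ)) := by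
        gcongr
        linarith

end Pool.Agent.Results.MP_7e9a3a_nt.MobiusImages
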